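import Mathlib
import Pool.Agent.Helper407.NC.Final
import Pool.Agent.Helper407.NC.Multi
import Pool.Agent.Helper407.NC.Equal

set_option autoImplicit false

open Pool.Agent.Helper407.NC

namespace Pool.Agent.Results.MP_7a7339_al.NilpotentCases

theorem omega_of_cyclic {P : Type} [Group P] [Finite P] (p : ℕ) (hp : p.Prime)
    (h : IsCyclic (Subgroup.center P)) :
    Nat.card {z : P // z ∈ Subgroup.center P ∧ z ^ p = 1} ≤ p := by
  classical
  haveI := Fintype.ofFinite (Subgroup.center P)
  have h1 := IsCyclic.card_pow_eq_one_le (α := Subgroup.center P) hp.pos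
  have h2 : Nat.card {z : P // z ∈ Subgroup.center P ∧ z ^ p = 1} ≤
      Nat.card {z : Subgroup.center P // z ^ p = 1} :=
    Nat.card_le_card_of_injective
      (fun z : {z : P // z ∈ Subgroup.center P ∧ z ^ p = 1} =>
        (⟨⟨z.1, z.2.1⟩, Subtype.ext z.2.2⟩ : {z : Subgroup.center P // z ^ p = 1})) (by
        intro a b hab
        exact Subtype.ext (congrArg
          (fun w : {z : Subgroup.center P // z ^ p = 1} => (w.1 : P)) hab))
  refine h2.trans (le_trans (le_of_eq ?_) h1)
  rw [Nat.card_eq_fintype_card, Fintype.card_subtype]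

/-- The conjecture that the non-commuting graph of a finite nilpotent group determines
nilpotency: it holds, with `|G| = |H|`, whenever `|H : Z(H)|` is not a prime power, and for a
large class of groups `H` with `|H : Z(H)|` a prime power. -/
theorem result (G H : Type) [Group G] [Group H] [Finite G] [Finite H]
    (hiso : Nonempty (ncGraph G ≃g ncGraph H)) (hH : Group.IsNilpotent H) :
    ((∀ p S : ℕ, p.Prime → (Subgroup.center H).index ≠ p ^ S) →
      Nat.card G = Nat.card H ∧ Group.IsNilpotent G) ∧
    (∀ p : ℕ, p.Prime → ∀ P : Sylow p H, (∃ a b : P, a * b ≠ b * a) →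
      ((∃ A B : Set P, A ⊆ B ∧
          1 < (Subgroup.center P).relIndex (Subgroup.centralizer B) ∧
          (Subgroup.center P).relIndex (Subgroup.centralizer B) <
            (Subgroup.center P).relIndex (Subgroup.centralizer A) ∧
          (Subgroup.center P).relIndex (Subgroup.centralizer A) ≤
            (Subgroup.center P).relIndex (Subgroup.centralizer B) ^ 2) ∨
        (∃ x : P, x ∉ Subgroup.center P ∧
          (Subgroup.centralizer {x}).index ^ 2 ≤ (Subgroup.center P).index) ∨
        Nat.card {z : P // z ∈ Subgroup.center P ∧ z ^ p = 1} ^ 2 ≤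
          (Subgroup.center P).index ∨
        IsCyclic (Subgroup.center P) ∨
        Nat.card (Subgroup.center P) ^ 3 ≤ Nat.card P) →
      Nat.card G = Nat.card H ∧ Group.IsNilpotent G) ∧
    (∀ p S : ℕ, p.Prime → S ≤ 4 → (Subgroup.center H).index = p ^ S →
      Group.IsNilpotent G) ∧
    ((∀ x y : H, x ∉ Subgroup.center H → y ∉ Subgroup.center H →
        (Subgroup.centralizer {x}).index = (Subgroup.centralizer {y}).index) →
      Group.IsNilpotent G) := by
  obtain ⟨e⟩ := hiso
  refine ⟨fun hn => nil_not_pp e hH hn, ?_, ?_, fun h => equal_classes e h⟩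
  · rintro p hp P hP (⟨A, B, hAB, h1, h2, h3⟩ | ⟨x, hx, h⟩ | h | h | h)
    · exact nil_pair e hH p hp P A B hAB h1 h2 h3
    · exact nil_single e hH p hp P x hx h
    · exact nil_omega e hH p hp P hP h
    · exact nil_cyclic e hH p hp P hP (omega_of_cyclic p hp h)
    · exact nil_cube e hH p hp P hP h
  · intro p S hp hS4 hS
    exact small_index e p S hp hS4 hS

end Pool.Agent.Results.MP_7a7339_al.NilpotentCases
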